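import Pool.Agent.Helper332.CC5

set_option autoImplicit false

namespace Pool.Agent.Results.MP_672973_lc.SquareNotCountablyCompact

open Pool.Agent.Helper332.CC

/-- Sanity check: the class used below is the usual definition by countable open covers. -/
theorem countablyCompactSpace_iff (X : Type*) [TopologicalSpace X] :
    CountablyCompactSpace X ↔ ∀ U : ℕ → Set X, (∀ n, IsOpen (U n)) → (⋃ n, U n) = Set.univ →
      ∃ F : Finset ℕ, (⋃ n ∈ F, U n) = Set.univ := by
  constructor
  · intro h U hU hc
    obtain ⟨F, hF⟩ := isCountablyCompact_iff_countable_open_cover.mp h.isCountablyCompact_univ U hU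
      hc.symm.subset
    exact ⟨F, Set.univ_subset_iff.mp hF⟩
  · intro h
    refine ⟨isCountablyCompact_iff_countable_open_cover.mpr fun U hU hc => ?_⟩
    obtain ⟨F, hF⟩ := h U hU (Set.univ_subset_iff.mp hc)
    exact ⟨F, hF.symm.subset⟩

/-- There is a countably compact Tikhonov topological group whose square is not countably
compact. -/
theorem result : ∃ (G : Type) (_ : Group G) (_ : TopologicalSpace G),
    IsTopologicalGroup G ∧ T35Space G ∧ CountablyCompactSpace G ∧
      ¬ CountablyCompactSpace (G × G) :=
  ⟨Multiplicative GG, inferInstance, inferInstance, inferInstance,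
    inferInstanceAs (T35Space GG), countablyCompact_GG, not_countablyCompact_sq⟩

end Pool.Agent.Results.MP_672973_lc.SquareNotCountablyCompact
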